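import Pool.Agent.Helper42.QD.Stmts

/-! (K1): the Whittaker functional. -/

namespace Pool.Agent.Helper42.QD

open Classical in
theorem st_K1 : ST_K1 := by
  intro D k _ _ _ c V _ _ rho hfr
  have hfin : Module.Finite ℂ (V ⧸ tsp rho c.psi) := Module.finite_of_finrank_pos (by omega)
  have e : (V ⧸ tsp rho c.psi) ≃ₗ[ℂ] ℂ :=
    LinearEquiv.ofFinrankEq _ _ (by rw [hfr, Module.finrank_self])
  set l : V →ₗ[ℂ] ℂ := e.toLinearMap.comp (tsp rho c.psi).mkQ with hl
  have hker : ∀ v, l v = 0 ↔ v ∈ tsp rho c.psi := by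
    intro v
    rw [hl, LinearMap.comp_apply, LinearEquiv.coe_coe, LinearEquiv.map_eq_zero_iff,
      Submodule.mkQ_apply, Submodule.Quotient.mk_eq_zero]
  have hex : ∃ v0, l v0 = 1 := by
    obtain ⟨v0, hv0⟩ := (tsp rho c.psi).mkQ_surjective (e.symm 1)
    exact ⟨v0, by rw [hl, LinearMap.comp_apply, hv0]; simp⟩
  obtain ⟨v0, hv0⟩ := hex
  have hnn : ∀ x v, l (rho (nn x) v) = c.psi x * l v := by
    intro x v
    have h1 : l (rho (nn x) v - c.psi x • v) = 0 := by
      rw [hker]
      exact Submodule.subset_span ⟨x, v, rfl⟩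
    rw [map_sub, map_smul, smul_eq_mul, sub_eq_zero] at h1
    exact h1
  have hpsi : ∀ a x : D, a ≠ 0 → c.psi (a * x * a⁻¹) = c.psi x := by
    intro a x ha
    rw [c.psi_comm, ← mul_assoc, inv_mul_cancel₀ ha, one_mul]
  have hstab : ∀ a : D, a ≠ 0 → ∀ v ∈ tsp rho c.psi, rho (dg a a) v ∈ tsp rho c.psi := by
    intro a ha v hv
    induction hv using Submodule.span_induction with
    | mem w hw =>
      obtain ⟨x, u, rfl⟩ := hw
      rw [map_sub, map_smul]
      have h1 : rho (dg a a) (rho (nn x) u) = rho (nn (a * x * a⁻¹)) (rho (dg a a) u) := by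
        rw [← Module.End.mul_apply, ← map_mul, dg_nn ha ha, map_mul, Module.End.mul_apply]
      rw [h1, ← hpsi a x ha]
      exact Submodule.subset_span ⟨_, _, rfl⟩
    | zero => rw [map_zero]; exact Submodule.zero_mem _
    | add x y _ _ hx hy => rw [map_add]; exact Submodule.add_mem _ hx hy
    | smul r x _ hx => rw [map_smul]; exact Submodule.smul_mem _ _ hx
  have hom : ∀ a : D, a ≠ 0 → ∀ v, l (rho (dg a a) v) = l (rho (dg a a) v0) * l v := by
    intro a ha v
    have h1 : l (v - l v • v0) = 0 := by rw [map_sub, map_smul, hv0, smul_eq_mul, mul_one, sub_self]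
    have h2 := (hker _).2 (hstab a ha _ ((hker _).1 h1))
    rw [map_sub, map_sub, map_smul, map_smul, smul_eq_mul, sub_eq_zero] at h2
    rw [h2, mul_comm]
  have hdg1 : dg (1 : D) 1 = 1 := by
    apply Units.ext
    rw [dg_val one_ne_zero one_ne_zero]
    refine Matrix.ext fun i j => ?_
    fin_cases i <;> fin_cases j <;> simp
  refine ⟨l, { toFun := fun a => if a = 0 then 0 else l (rho (dg a a) v0)
               map_zero' := by simp
               map_one' := by rw [if_neg one_ne_zero, hdg1, map_one]; exact hv0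
               map_mul' := ?_ }, ⟨v0, by rw [hv0]; exact one_ne_zero⟩, hker, hnn, ?_⟩
  · intro a b
    by_cases ha : a = 0
    · simp [ha]
    by_cases hb : b = 0
    · simp [hb]
    have hab : a * b ≠ 0 := mul_ne_zero ha hb
    rw [if_neg ha, if_neg hb, if_neg hab, ← dg_mul ha ha hb hb, map_mul, Module.End.mul_apply, hom a ha]
  · intro a ha v
    rw [hom a ha v]
    simp [ha]

end Pool.Agent.Helper42.QD
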